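import Mathlib
import Pool.Agent.Helper21.SR.St

/-!
# SR, module PAIR: pigeonhole for coincident sums in a block (MP_cc0731_co)
-/

set_option autoImplicit false

namespace Pool.Agent.Helper4.SR

open Finset Pool.Agent.Helper21.SR
open scoped Pointwise

theorem card_lt_PAIR (B : Finset ℝ) :
    2 * #((B ×ˢ B).filter (fun q => q.1 < q.2)) = #B * #B - #B := by
  have h1 : B.offDiag = (B ×ˢ B).filter (fun q => q.1 < q.2) ∪
      (B ×ˢ B).filter (fun q => q.2 < q.1) := by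
    ext q
    simp only [mem_offDiag, mem_union, mem_filter, mem_product]
    constructor
    · rintro ⟨h1, h2, h3⟩
      rcases lt_or_gt_of_ne h3 with h | h
      · exact Or.inl ⟨⟨h1, h2⟩, h⟩
      · exact Or.inr ⟨⟨h1, h2⟩, h⟩
    · rintro (⟨⟨h1, h2⟩, h⟩ | ⟨⟨h1, h2⟩, h⟩)
      · exact ⟨h1, h2, h.ne⟩
      · exact ⟨h1, h2, h.ne'⟩
  have h2 : Disjoint ((B ×ˢ B).filter (fun q => q.1 < q.2))
      ((B ×ˢ B).filter (fun q => q.2 < q.1)) := by
    rw [Finset.disjoint_left]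
    intro q hq hq'
    exact lt_asymm (mem_filter.1 hq).2 (mem_filter.1 hq').2
  have h3 : #((B ×ˢ B).filter (fun q => q.2 < q.1)) = #((B ×ˢ B).filter (fun q => q.1 < q.2)) := by
    refine card_bij (fun q _ => (q.2, q.1)) ?_ ?_ ?_
    · intro q hq
      simp only [mem_filter, mem_product] at hq ⊢
      exact ⟨⟨hq.1.2, hq.1.1⟩, hq.2⟩
    · intro q _ q' _ h
      simp only [Prod.mk.injEq] at h
      exact Prod.ext h.2 h.1
    · intro q hq
      simp only [mem_filter, mem_product] at hq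
      refine ⟨(q.2, q.1), ?_, rfl⟩
      simp only [mem_filter, mem_product]
      exact ⟨⟨hq.1.2, hq.1.1⟩, hq.2⟩
  have h4 := offDiag_card B
  rw [h1, card_union_of_disjoint h2, h3] at h4
  omega

theorem hPair : StPair := by
  intro B Pt τ M hBM hM hτ hPt hW
  set P := (B ×ˢ B).filter (fun q => q.1 < q.2) with hP
  let φ : ℝ × ℝ → ℝ × ℝ → ℝ × ℝ := fun q z => (z.1 + z.2, q.1 * z.1 + q.2 * z.2)
  let W : ℝ × ℝ → Finset (ℝ × ℝ) := fun q => (Pt q.1 ×ˢ Pt q.2).image (φ q)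
  have hWset : Wset Pt B = P.biUnion W := rfl
  have hPm : ∀ q ∈ P, q.1 ∈ B ∧ q.2 ∈ B ∧ q.1 < q.2 := by
    intro q hq
    rw [hP, mem_filter, mem_product] at hq
    exact ⟨hq.1.1, hq.1.2, hq.2⟩
  have hinj : ∀ q ∈ P, Function.Injective (φ q) := by
    intro q hq z z' h
    have h0 := (hPm q hq).2.2
    simp only [φ, Prod.mk.injEq] at h
    have h1 : (q.2 - q.1) * (z.2 - z'.2) = 0 := by linear_combination h.2 - q.1 * h.1
    have h2 : z.2 = z'.2 := by
      rcases mul_eq_zero.1 h1 with h3 | h3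
      · linarith
      · linarith
    exact Prod.ext (by linarith [h.1]) h2
  have hWc : ∀ q ∈ P, #(W q) = τ ^ 2 := by
    intro q hq
    rw [card_image_of_injective _ (hinj q hq), card_product, hPt _ (hPm q hq).1,
      hPt _ (hPm q hq).2.1, sq]
  -- points in several images
  let D : ℝ × ℝ → Finset (ℝ × ℝ) := fun q => (W q).filter (fun p => p ∈ (P.erase q).biUnion W)
  let U : ℝ × ℝ → Finset (ℝ × ℝ) := fun q => (W q).filter (fun p => p ∉ (P.erase q).biUnion W)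
  have hDU : ∀ q ∈ P, #(D q) + #(U q) = τ ^ 2 := by
    intro q hq
    rw [← hWc q hq]
    exact card_filter_add_card_filter_not _
  have hU : ∑ q ∈ P, #(U q) ≤ #(Wset Pt B) := by
    rw [hWset, ← card_biUnion]
    · refine card_le_card ?_
      intro p hp
      obtain ⟨q, hq, hpq⟩ := mem_biUnion.1 hp
      exact mem_biUnion.2 ⟨q, hq, (mem_filter.1 hpq).1⟩
    · intro q hq q' hq' hqq'
      rw [Function.onFun, Finset.disjoint_left]
      intro p hp hp'
      refine (mem_filter.1 hp).2 (mem_biUnion.2 ⟨q', mem_erase.2 ⟨hqq'.symm, hq'⟩, ?_⟩)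
      exact (mem_filter.1 hp').1
  have hPc : 2 * #P = M * M - M := by
    rw [← hBM]
    exact card_lt_PAIR B
  have hMM : M * M = 2 * #P + M := by
    have : M ≤ M * M := Nat.le_mul_self M
    omega
  obtain ⟨q, hq, hqD⟩ : ∃ q ∈ P, τ ^ 2 ≤ 2 * #(D q) := by
    by_contra hcon
    push Not at hcon
    have hne : P.Nonempty := by
      rw [← card_pos]
      nlinarith
    have h1 : ∑ q ∈ P, 2 * #(D q) < ∑ _q ∈ P, τ ^ 2 := sum_lt_sum_of_nonempty hne hcon
    have h2 : ∑ q ∈ P, (#(D q) + #(U q)) = ∑ _q ∈ P, τ ^ 2 := sum_congr rfl hDU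
    rw [sum_add_distrib] at h2
    rw [← mul_sum] at h1
    rw [sum_const, smul_eq_mul] at h1 h2
    have h3 : #P * τ ^ 2 < 2 * #(Wset Pt B) := by omega
    have h4 : 4 * (#P * τ ^ 2) < M ^ 2 * τ ^ 2 := by omega
    have h5 : 4 * #P < M ^ 2 := by
      have h6 : (4 * #P) * τ ^ 2 < M ^ 2 * τ ^ 2 := by linarith
      exact lt_of_mul_lt_mul_right h6 (Nat.zero_le _)
    nlinarith
  obtain ⟨hs, ht, hst⟩ := hPm q hq
  -- the good values of r
  let G : ℝ → Finset (ℝ × ℝ) := fun r => (D q).filter (fun p => r ≠ q.1 ∧ r ≠ q.2 ∧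
    ∃ r' ∈ B, r' ≠ r ∧ ∃ z ∈ Pt r, ∃ x' ∈ Pt r', p.1 = z + x' ∧ p.2 = r * z + r' * x')
  have hcov : D q ⊆ B.biUnion G := by
    intro p hp
    obtain ⟨q', hq', hpq'⟩ := mem_biUnion.1 (mem_filter.1 hp).2
    obtain ⟨hne, hq'P⟩ := mem_erase.1 hq'
    obtain ⟨z, hz, hzp⟩ := mem_image.1 hpq'
    obtain ⟨hz1, hz2⟩ := mem_product.1 hz
    obtain ⟨hs', ht', hst'⟩ := hPm q' hq'P
    have e1 : p.1 = z.1 + z.2 := by rw [← hzp]
    have e2 : p.2 = q'.1 * z.1 + q'.2 * z.2 := by rw [← hzp]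
    by_cases h1 : q'.1 ≠ q.1 ∧ q'.1 ≠ q.2
    · exact mem_biUnion.2 ⟨q'.1, hs', mem_filter.2 ⟨hp, h1.1, h1.2, q'.2, ht', hst'.ne', z.1, hz1,
        z.2, hz2, e1, e2⟩⟩
    · have h2 : q'.2 ≠ q.1 ∧ q'.2 ≠ q.2 := by
        by_contra h3
        have h4 : q'.1 = q.1 ∨ q'.1 = q.2 := by
          by_contra h5
          push Not at h5
          exact h1 h5
        have h6 : q'.2 = q.1 ∨ q'.2 = q.2 := by
          by_contra h5
          push Not at h5
          exact h3 h5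
        rcases h4 with h4 | h4 <;> rcases h6 with h6 | h6
        · rw [h4, h6] at hst'; exact lt_irrefl _ hst'
        · exact hne (Prod.ext h4 h6)
        · rw [h4, h6] at hst'; exact lt_asymm hst' hst
        · rw [h4, h6] at hst'; exact lt_irrefl _ hst'
      exact mem_biUnion.2 ⟨q'.2, ht', mem_filter.2 ⟨hp, h2.1, h2.2, q'.1, hs', hst'.ne, z.2, hz2,
        z.1, hz1, by rw [e1]; ring, by rw [e2]; ring⟩⟩
  obtain ⟨r, hr, hrG⟩ : ∃ r ∈ B, #(D q) ≤ M * #(G r) := by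
    by_contra hcon
    push Not at hcon
    have hne : B.Nonempty := ⟨q.1, hs⟩
    have h1 : ∑ r ∈ B, M * #(G r) < ∑ _r ∈ B, #(D q) := sum_lt_sum_of_nonempty hne hcon
    rw [← mul_sum, sum_const, smul_eq_mul, hBM] at h1
    have h2 : ∑ r ∈ B, #(G r) < #(D q) := lt_of_mul_lt_mul_left h1 (Nat.zero_le _)
    exact absurd ((card_le_card hcov).trans card_biUnion_le) (not_le.2 h2)
  have hDpos : 0 < #(D q) := by
    have : 0 < τ ^ 2 := by positivity
    omega
  have hGne : (G r).Nonempty := by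
    rw [← card_pos]
    by_contra h0
    have h1 : #(G r) = 0 := by omega
    rw [h1, mul_zero] at hrG
    omega
  obtain ⟨p0, hp0⟩ := hGne
  obtain ⟨-, hr1, hr2, -⟩ := mem_filter.1 hp0
  refine ⟨q.1, hs, q.2, ht, r, hr, hst, hr1, hr2,
    (Pt q.1 ×ˢ Pt q.2).filter (fun z => φ q z ∈ G r), filter_subset _ _, ?_, ?_⟩
  · have h1 : G r ⊆ ((Pt q.1 ×ˢ Pt q.2).filter (fun z => φ q z ∈ G r)).image (φ q) := by
      intro p hp
      obtain ⟨z, hz, hzp⟩ := mem_image.1 (mem_filter.1 (mem_filter.1 hp).1).1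
      exact mem_image.2 ⟨z, mem_filter.2 ⟨hz, by rw [hzp]; exact hp⟩, hzp⟩
    have h2 := (card_le_card h1).trans card_image_le
    calc τ ^ 2 ≤ 2 * #(D q) := hqD
      _ ≤ 2 * (M * #(G r)) := Nat.mul_le_mul_left 2 hrG
      _ ≤ 2 * (M * #((Pt q.1 ×ˢ Pt q.2).filter (fun z => φ q z ∈ G r))) :=
          Nat.mul_le_mul_left 2 (Nat.mul_le_mul_left M h2)
      _ = 2 * M * #((Pt q.1 ×ˢ Pt q.2).filter (fun z => φ q z ∈ G r)) := by ring
  · intro z hz
    obtain ⟨-, -, -, r', hr', hrr', a, ha, x', hx', e1, e2⟩ := mem_filter.1 (mem_filter.1 hz).2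
    exact ⟨r', hr', hrr', a, ha, x', hx', e1, e2⟩

end Pool.Agent.Helper4.SR
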