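import Pool.Agent.Helper5.SR.St1

/-!
# Project SR, module MAT
-/

set_option autoImplicit false

namespace Pool.Agent.Helper4.SR

open Helper5.SR Pool.Agent.Helper51.LT

/-- the matrix `A + t D_I` applied to `x` -/
private noncomputable def BI {N : ℕ} (A : Fin N → Fin N → ℂ) (t : ℝ) (I : Finset (Fin N))
    (x : Fin N → ℂ) (i : Fin N) : ℂ :=
  (∑ j, A i j * x j) + (if i ∈ I then (t : ℂ) * x i else 0)

private lemma mat_pair {N : ℕ} (A : Fin N → Fin N → ℂ) (hA : ∀ i j, A i j = A j i) (t : ℝ)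
    (I : Finset (Fin N)) (l : Fin N) (hl : l ∉ I) (x y : Fin N → ℂ) :
    (t : ℂ) * (x l * y l) = ∑ i, BI A t (insert l I) y i * x i - ∑ i, BI A t I x i * y i := by
  classical
  have h1 : ∑ i, (∑ j, A i j * y j) * x i = ∑ i, (∑ j, A i j * x j) * y i := by
    simp_rw [Finset.sum_mul]
    rw [Finset.sum_comm]
    refine Finset.sum_congr rfl fun i _ => Finset.sum_congr rfl fun j _ => ?_
    rw [hA j i]; ring
  have h2 : ∑ i, (if i ∈ insert l I then (t : ℂ) * y i else 0) * x i =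
      (t : ℂ) * (x l * y l) + ∑ i, (if i ∈ I then (t : ℂ) * x i else 0) * y i := by
    have h3 : ∀ i, (if i ∈ insert l I then (t : ℂ) * y i else 0) * x i =
        (if i = l then (t : ℂ) * (x l * y l) else 0) +
          (if i ∈ I then (t : ℂ) * x i else 0) * y i := by
      intro i
      by_cases hi : i = l
      · subst hi
        simp [hl]; ring
      · by_cases hI : i ∈ I
        · simp [hi, hI]; ring
        · simp [hi, hI]
    rw [Finset.sum_congr rfl fun i _ => h3 i, Finset.sum_add_distrib]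
    simp
  simp only [BI, add_mul, Finset.sum_add_distrib]
  rw [h1, h2]
  ring

private lemma mat_step {N : ℕ} (hN : 1 ≤ N) (A : Fin N → Fin N → ℂ) (hA : ∀ i j, A i j = A j i)
    (t : ℝ) (ht : 0 < t) (I : Finset (Fin N)) (δ : ℝ) (hδ : 0 < δ) (hδ1 : δ ≤ 1 / 2)
    (hgood : ∀ x : Fin N → ℂ, (∀ k, ‖x k‖ ≤ 1) → (∃ k, ‖x k‖ = 1) →
      (∀ i, ‖BI A t I x i‖ ≤ δ * t) → ∀ i ∈ I, ‖x i‖ ≤ 1 / 2) :
    (∀ x : Fin N → ℂ, (∀ k, ‖x k‖ ≤ 1) → (∃ k, ‖x k‖ = 1) →
      ∃ i, δ / (8 * N) * t ≤ ‖BI A t I x i‖) ∨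
    ∃ l, l ∉ I ∧ ∀ y : Fin N → ℂ, (∀ k, ‖y k‖ ≤ 1) → (∃ k, ‖y k‖ = 1) →
      (∀ i, ‖BI A t (insert l I) y i‖ ≤ δ / (8 * N) * t) → ∀ i ∈ insert l I, ‖y i‖ ≤ 1 / 2 := by
  classical
  have hNr : (1 : ℝ) ≤ N := by exact_mod_cast hN
  have hδ' : δ / (8 * N) ≤ δ / 8 := by
    apply div_le_div_of_nonneg_left hδ.le (by norm_num)
    linarith
  have hδ'0 : 0 < δ / (8 * N) := by positivity
  by_cases h : ∀ x : Fin N → ℂ, (∀ k, ‖x k‖ ≤ 1) → (∃ k, ‖x k‖ = 1) →
      ∃ i, δ / (8 * N) * t ≤ ‖BI A t I x i‖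
  · exact Or.inl h
  right
  push Not at h
  obtain ⟨x, hx1, ⟨l, hxl⟩, hx⟩ := h
  have hlI : l ∉ I := by
    intro hl
    have h1 := hgood x hx1 ⟨l, hxl⟩ (fun i => (hx i).le.trans
      (mul_le_mul_of_nonneg_right (by linarith) ht.le)) l hl
    rw [hxl] at h1
    norm_num at h1
  refine ⟨l, hlI, ?_⟩
  intro y hy1 hy2 hy
  have hpair := mat_pair A hA t I l hlI x y
  have hs1 : ‖∑ i, BI A t (insert l I) y i * x i‖ ≤ N * (δ / (8 * N) * t) := by
    refine (norm_sum_le _ _).trans ?_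
    calc ∑ i, ‖BI A t (insert l I) y i * x i‖ ≤ ∑ _i : Fin N, δ / (8 * N) * t := by
          refine Finset.sum_le_sum fun i _ => ?_
          rw [norm_mul]
          calc ‖BI A t (insert l I) y i‖ * ‖x i‖ ≤ (δ / (8 * N) * t) * 1 :=
                mul_le_mul (hy i) (hx1 i) (norm_nonneg _) (by positivity)
            _ = _ := mul_one _
      _ = N * (δ / (8 * N) * t) := by simp
  have hs2 : ‖∑ i, BI A t I x i * y i‖ ≤ N * (δ / (8 * N) * t) := by
    refine (norm_sum_le _ _).trans ?_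
    calc ∑ i, ‖BI A t I x i * y i‖ ≤ ∑ _i : Fin N, δ / (8 * N) * t := by
          refine Finset.sum_le_sum fun i _ => ?_
          rw [norm_mul]
          calc ‖BI A t I x i‖ * ‖y i‖ ≤ (δ / (8 * N) * t) * 1 :=
                mul_le_mul (hx i).le (hy1 i) (norm_nonneg _) (by positivity)
            _ = _ := mul_one _
      _ = N * (δ / (8 * N) * t) := by simp
  have hNe : (N : ℝ) * (δ / (8 * N) * t) = δ / 8 * t := by
    field_simp
  have hyl : ‖y l‖ ≤ δ / 4 := by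
    have h1 : ‖(t : ℂ) * (x l * y l)‖ ≤ δ / 8 * t + δ / 8 * t := by
      rw [hpair]
      refine (norm_sub_le _ _).trans ?_
      rw [hNe] at hs1 hs2
      exact add_le_add hs1 hs2
    rw [norm_mul, norm_mul, hxl, one_mul, Complex.norm_real, Real.norm_eq_abs,
      abs_of_pos ht] at h1
    have h2 : t * ‖y l‖ ≤ t * (δ / 4) := by linarith
    exact le_of_mul_le_mul_left h2 ht
  intro i hi
  rcases Finset.mem_insert.1 hi with rfl | hiI
  · linarith
  · refine hgood y hy1 hy2 (fun k => ?_) i hiI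
    have hBk : BI A t I y k = BI A t (insert l I) y k - (if k = l then (t : ℂ) * y l else 0) := by
      by_cases hk : k = l
      · subst hk
        simp [BI, hlI]
      · simp [BI, hk]
    rw [hBk]
    refine (norm_sub_le _ _).trans ?_
    have h3 : ‖(if k = l then (t : ℂ) * y l else 0)‖ ≤ t * (δ / 4) := by
      by_cases hk : k = l
      · rw [if_pos hk, norm_mul, Complex.norm_real, Real.norm_eq_abs, abs_of_pos ht]
        exact mul_le_mul_of_nonneg_left hyl ht.le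
      · rw [if_neg hk, norm_zero]
        positivity
    have h4 := hy k
    have h5 : δ / (8 * N) * t ≤ δ / 8 * t := mul_le_mul_of_nonneg_right hδ' ht.le
    nlinarith [mul_pos hδ ht]

private lemma mat_iter {N : ℕ} (hN : 1 ≤ N) (A : Fin N → Fin N → ℂ) (hA : ∀ i j, A i j = A j i)
    (t : ℝ) (ht : 0 < t) (k : ℕ) :
    (∃ I : Finset (Fin N), ∀ x : Fin N → ℂ, (∀ k, ‖x k‖ ≤ 1) → (∃ k, ‖x k‖ = 1) →
      ∃ i, 1 / 2 * (1 / (8 * N)) ^ k * t ≤ ‖BI A t I x i‖) ∨
    ∃ I : Finset (Fin N), I.card = k ∧ ∀ x : Fin N → ℂ, (∀ k, ‖x k‖ ≤ 1) → (∃ k, ‖x k‖ = 1) →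
      (∀ i, ‖BI A t I x i‖ ≤ 1 / 2 * (1 / (8 * N)) ^ k * t) → ∀ i ∈ I, ‖x i‖ ≤ 1 / 2 := by
  classical
  have hNr : (1 : ℝ) ≤ N := by exact_mod_cast hN
  have hq0 : 0 < 1 / (8 * (N : ℝ)) := by positivity
  have hq1 : 1 / (8 * (N : ℝ)) ≤ 1 := by
    rw [div_le_one (by positivity)]; linarith
  induction k with
  | zero => exact Or.inr ⟨∅, by simp, by simp⟩
  | succ k ih =>
    have hδ : 0 < 1 / 2 * (1 / (8 * (N : ℝ))) ^ k := by positivity
    have hδ1 : 1 / 2 * (1 / (8 * (N : ℝ))) ^ k ≤ 1 / 2 := by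
      have := pow_le_one₀ (n := k) hq0.le hq1
      linarith
    have he : 1 / 2 * (1 / (8 * (N : ℝ))) ^ (k + 1) = 1 / 2 * (1 / (8 * (N : ℝ))) ^ k / (8 * N) := by
      rw [pow_succ]; ring
    rcases ih with ⟨I, hI⟩ | ⟨I, hc, hI⟩
    · left
      refine ⟨I, fun x h1 h2 => ?_⟩
      obtain ⟨i, hi⟩ := hI x h1 h2
      refine ⟨i, le_trans ?_ hi⟩
      apply mul_le_mul_of_nonneg_right _ ht.le
      have := pow_le_pow_of_le_one hq0.le hq1 (Nat.le_succ k)
      exact mul_le_mul_of_nonneg_left this (by norm_num)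
    · rcases mat_step hN A hA t ht I _ hδ hδ1 hI with h | ⟨l, hl, h⟩
      · left
        rw [he]
        exact ⟨I, h⟩
      · right
        rw [he]
        exact ⟨insert l I, by rw [Finset.card_insert_of_notMem hl, hc], h⟩

theorem hMat : StMat := by
  classical
  intro N
  rcases Nat.eq_zero_or_pos N with h0 | hN
  · subst h0
    refine ⟨1, one_pos, fun A _ t _ => ⟨∅, fun x _ ⟨k, _⟩ => k.elim0⟩⟩
  have hNr : (1 : ℝ) ≤ N := by exact_mod_cast hN
  refine ⟨1 / 2 * (1 / (8 * N)) ^ N, by positivity, ?_⟩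
  intro A hA t ht
  rcases mat_iter hN A hA t ht N with ⟨I, hI⟩ | ⟨I, hc, hI⟩
  · exact ⟨I, fun x h1 h2 => hI x h1 h2⟩
  · refine ⟨I, fun x h1 h2 => ?_⟩
    by_contra hcon
    push Not at hcon
    have hIu : I = Finset.univ := Finset.eq_univ_of_card I (by rw [hc, Fintype.card_fin])
    obtain ⟨k, hk⟩ := h2
    have h3 := hI x h1 ⟨k, hk⟩ (fun i => (hcon i).le) k (by rw [hIu]; exact Finset.mem_univ k)
    rw [hk] at h3
    norm_num at h3

end Pool.Agent.Helper4.SR
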